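import Pool.Agent.H47S.Xcd0533Nonzero

namespace Pool.Agent.Results.MP_cd0533_lc.NonzeroOnly


open Pool.Agent.Results.MP_cd0533_lc.Nonzero

theorem result :
    PE {x : ℚ | x ≠ 0} :=
  parts.1

end Pool.Agent.Results.MP_cd0533_lc.NonzeroOnly
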